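import Mathlib

set_option autoImplicit false
open Finset SimpleGraph Function
open scoped Classical

namespace Pool.Agent.H.MP_2c76b2_co

abbrev W (s k : ℕ) := Bool ⊕ Fin (s + 2) × Fin k

def FR {s k : ℕ} : W s k → W s k → Prop
  | .inl a, .inl b => a ≠ b
  | .inl a, .inr p => a = false ∨ p.1 ≠ 0
  | .inr p, .inl a => a = false ∨ p.1 ≠ 0
  | .inr p, .inr q => p.1 ≠ q.1 ∧ (p.1.1 ≤ 1 → q.1.1 ≤ 1 → p.2 = q.2)

def F (s k : ℕ) : SimpleGraph (W s k) where
  Adj := FR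
  symm := ⟨by
    rintro (a | p) (b | q) h
    exacts [Ne.symm h, h, h, ⟨h.1.symm, fun a b => (h.2 b a).symm⟩]⟩
  loopless := ⟨by rintro (a | p) h; exacts [h rfl, h.1 rfl]⟩

variable {V : Type} {G : SimpleGraph V} {s k : ℕ}

lemma cont (u x : V) (g : Fin (s + 2) → Fin k → V) (hux : G.Adj u x) (hu : ∀ a j, G.Adj u (g a j))
    (hx : ∀ a j, a ≠ 0 → G.Adj x (g a j)) (hx' : ∀ j, x ≠ g 0 j)
    (hg : ∀ a b i j, a ≠ b → (a.1 ≤ 1 → b.1 ≤ 1 → i = j) → G.Adj (g a i) (g b j))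
    (i1 : ∀ a, Injective (g a)) (i2 : ∀ i j, g 0 i ≠ g 1 j) : F s k ⊑ G := by
  have x' : ∀ a j, x ≠ g a j := fun a j => by
    by_cases h : a = 0
    exacts [h ▸ hx' j, (hx a j h).ne]
  refine ⟨⟨⟨Sum.elim (fun b => if b then x else u) fun p => g p.1 p.2, ?_⟩, ?_⟩⟩
  · rintro ((_ | _) | p) ((_ | _) | q) h
    exacts [absurd rfl h, hux, hu _ _, hux.symm, absurd rfl h, hx _ _ (by simpa [F, FR] using h),
      (hu _ _).symm, (hx _ _ (by simpa [F, FR] using h)).symm, hg _ _ _ _ h.1 h.2]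
  · rintro ((_ | _) | ⟨a, i⟩) ((_ | _) | ⟨b, j⟩) h
    exacts [rfl, absurd h hux.ne, absurd h (hu _ _).ne, absurd h hux.ne', rfl, absurd h (x' _ _),
      absurd h (hu _ _).ne', absurd h (x' _ _).symm, by
        have h : g a i = g b j := h
        by_cases e : a = b
        · subst e; rw [i1 a h]
        by_cases c : a.1 ≤ 1 ∧ b.1 ≤ 1
        · have : a = 0 ∧ b = 1 ∨ a = 1 ∧ b = 0 := by
            simp only [Fin.ext_iff, Fin.val_zero, Fin.val_one] at e ⊢; omega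
          rcases this with ⟨rfl, rfl⟩ | ⟨rfl, rfl⟩
          exacts [absurd h (i2 _ _), absurd h.symm (i2 _ _)]
        · exact absurd h (hg a b i j e fun p q => absurd ⟨p, q⟩ c).ne]

lemma cont1 (v : V) (e : Fin (s + 2) → Fin (k + 1) → V) (y : Fin k → V)
    (i1 : ∀ a, Injective (e a)) (i2 : Injective y) (h1 : ∀ a j, a ≠ 1 → G.Adj v (e a j))
    (h2 : ∀ j, G.Adj v (y j)) (h3 : ∀ a i j, a ≠ 1 → G.Adj (y i) (e a j))
    (h4 : ∀ a b i j, a ≠ 1 → b ≠ 1 → a ≠ b → G.Adj (e a i) (e b j)) : F s k ⊑ G := by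
  have z : (0 : Fin (s + 2)) ≠ 1 := Fin.zero_ne_one
  refine cont v (e 0 (Fin.last k)) (fun a j => if a = 1 then y j else e a j.castSucc) (h1 _ _ z)
    (fun a j => ?_) (fun a j n => ?_) (fun j h => ?_) (fun a b i j n _ => ?_) (fun a i j h => ?_)
    fun i j => ?_
  · split_ifs with h
    exacts [h2 _, h1 _ _ h]
  · split_ifs with h
    exacts [(h3 _ _ _ z).symm, h4 _ _ _ _ z h n.symm]
  · rw [if_neg z] at h
    exact (Fin.castSucc_lt_last j).ne' (i1 0 h)
  · split_ifs with h h' h'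
    exacts [absurd (h.trans h'.symm) n, h3 _ _ _ h', (h3 _ _ _ h).symm, h4 _ _ _ _ h h' n]
  · simp only at h
    split_ifs at h
    exacts [i2 h, Fin.castSucc_injective _ (i1 a h)]
  · rw [if_neg z, if_pos rfl]
    exact (h3 _ _ _ z).ne'

variable [Fintype V]

lemma free (k0 : 0 < k) (c : V → Fin (s + 2)) (o : Fin (s + 2))
    (h1 : ∀ v w, G.Adj v w → c v = c w → c v = o)
    (h2 : ∀ v, c v = o → #{w | G.Adj v w ∧ c w = o} < k) : (F s k).Free G := by
  rintro ⟨f⟩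
  have A : ∀ p, c (f p) = o → ¬∀ j, ∃ a, FR p (.inr (a, j)) ∧ c (f (.inr (a, j))) = o :=
    fun p hp h => by
      choose a ha using h
      refine (h2 _ hp).not_ge ((card_fin k).ge.trans (card_le_card_of_injOn
        (fun j => f (.inr (a j, j))) (fun j _ => ?_) fun i _ j _ e => ?_))
      · simpa using ⟨f.toHom.map_adj (ha j).1, (ha j).2⟩
      · exact congrArg Prod.snd (Sum.inr.inj (f.injective e))
  have B : ∀ φ : Fin (s + 2) → W s k, (∀ a, FR (.inl false) (φ a)) → (∀ a b, a ≠ b →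
      FR (φ a) (φ b)) → (c (f (.inl false)) = o ∧ ∃ a, c (f (φ a)) = o) ∨
      ∃ a b, a ≠ b ∧ c (f (φ a)) = o ∧ c (f (φ b)) = o := fun φ p q => by
    obtain ⟨a, b, n, e⟩ := Fintype.exists_ne_map_eq_of_card_lt
      (fun a : Option (Fin (s + 2)) => c (f (a.elim (.inl false) φ))) (by simp)
    rcases a with _ | a <;> rcases b with _ | b
    · exact absurd rfl n
    · have := h1 _ _ (f.toHom.map_adj (p b)) e
      exact .inl ⟨this, b, e.symm.trans this⟩
    · have := h1 _ _ (f.toHom.map_adj (p a)) e.symm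
      exact .inl ⟨this, a, e.trans this⟩
    · have := h1 _ _ (f.toHom.map_adj (q a b (by simpa using n))) e
      exact .inr ⟨a, b, by simpa using n, this, e.symm.trans this⟩
  by_cases u : c (f (.inl false)) = o
  · refine A _ u fun j => ?_
    rcases B (fun a => .inr (a, j)) (fun _ => .inl rfl) fun a b n => ⟨n, fun _ _ => rfl⟩ with
      ⟨-, a, h⟩ | ⟨a, -, -, h, -⟩ <;> exact ⟨a, .inl rfl, h⟩
  have C := fun j => (B (fun a => if a = 0 then .inl true else .inr (a, j))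
    (fun a => by split_ifs <;> simp [FR])
    fun a b n => by split_ifs <;> simp_all [FR]).resolve_left fun h => u h.1
  by_cases x : c (f (.inl true)) = o
  · refine A _ x fun j => ?_
    obtain ⟨a, b, n, p, q⟩ := C j
    by_cases h : a = 0
    · exact ⟨b, .inr (h ▸ n.symm), by rwa [if_neg (h ▸ n.symm)] at q⟩
    · exact ⟨a, .inr h, by rwa [if_neg h] at p⟩
  have D : ∀ j, ∃ a b, a ≠ b ∧ a ≠ 0 ∧ b ≠ 0 ∧ c (f (.inr (a, j))) = o ∧
      c (f (.inr (b, j))) = o := fun j => by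
    obtain ⟨a, b, n, p, q⟩ := C j
    split_ifs at p q <;> first | exact absurd ‹_› x | exact ⟨a, b, n, ‹_›, ‹_›, p, q⟩
  obtain ⟨w, w2, hw⟩ : ∃ w : Fin (s + 2), ¬w.1 ≤ 1 ∧ c (f (.inr (w, ⟨0, k0⟩))) = o := by
    obtain ⟨a, b, n, a0, b0, p, q⟩ := D ⟨0, k0⟩
    simp only [Ne, Fin.ext_iff, Fin.val_zero] at n a0 b0
    by_cases h : a.1 ≤ 1
    exacts [⟨b, by omega, q⟩, ⟨a, h, p⟩]
  refine A _ hw fun j => ?_
  obtain ⟨a, b, n, -, -, p, q⟩ := D j
  by_cases h : w = a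
  exacts [⟨b, ⟨h ▸ n, fun h => absurd h w2⟩, q⟩, ⟨a, ⟨h, fun h => absurd h w2⟩, p⟩]

lemma reg (S : Finset V) (h : ℕ) (l : 2 * h < #S) : ∃ R : SimpleGraph V,
    (∀ v w, R.Adj v w → v ∈ S) ∧ ∀ v ∈ S, #{w | R.Adj v w} = 2 * h := by
  have : NeZero #S := ⟨by omega⟩
  obtain ⟨e⟩ : Nonempty (S ≃ ZMod #S) := Fintype.card_eq.1 (by simp)
  have i : ∀ a ∈ Icc (-h : ℤ) h, ∀ b ∈ Icc (-h : ℤ) h, (a : ZMod #S) = b → a = b :=
    fun a ha b hb e => by
      rw [mem_Icc] at ha hb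
      have := Int.eq_zero_of_abs_lt_dvd ((ZMod.intCast_eq_intCast_iff_dvd_sub _ _ _).1 e)
        (by rw [abs_lt]; omega)
      omega
  obtain ⟨D, hD⟩ : ∃ D : Finset (ZMod #S), D = ((Icc (-h : ℤ) h).erase 0).image Int.cast := ⟨_, rfl⟩
  refine ⟨⟨fun v w => ∃ hv hw, e ⟨v, hv⟩ - e ⟨w, hw⟩ ∈ D, ⟨?_⟩, ⟨?_⟩⟩, fun v w h => h.1,
    fun v hv => ?_⟩
  · rintro v w ⟨hv, hw, h⟩
    obtain ⟨a, ha, e1⟩ := mem_image.1 (hD ▸ h)
    refine ⟨hw, hv, hD ▸ mem_image.2 ⟨-a, ?_, by rw [Int.cast_neg, e1, neg_sub]⟩⟩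
    simp only [mem_erase, mem_Icc] at ha ⊢
    omega
  · rintro v ⟨hv, hw, h⟩
    obtain ⟨a, ha, e1⟩ := mem_image.1 (hD ▸ h)
    exact (mem_erase.1 ha).1 (i a (mem_erase.1 ha).2 0 (by simp) (by simpa using e1))
  · rw [show 2 * h = #D by
      rw [hD, card_image_of_injOn fun a ha b hb => i a (mem_erase.1 ha).2 b (mem_erase.1 hb).2,
        card_erase_of_mem (by simp), Int.card_Icc]; omega]
    refine (card_bij (fun δ _ => (e.symm (e ⟨v, hv⟩ - δ)).1) (fun δ h => ?_) (fun a _ b _ h => ?_)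
      fun w h => ?_).symm
    · simpa using ⟨hv, h⟩
    · simpa using Subtype.ext h
    · simp only [mem_filter, mem_univ, true_and] at h
      exact h.elim fun p q => q.elim fun hw q => ⟨_, q, by simp⟩

noncomputable def dg (G : SimpleGraph V) (v : V) : ℕ := #{w | G.Adj v w}

lemma dg_eq (G : SimpleGraph V) (v : V) : G.degree v = dg G v := by
  rw [dg, ← neighborFinset_eq_filter, card_neighborFinset_eq_degree]

lemma fib {ι : Type} [Fintype ι] [DecidableEq ι] (c : V → ι) (ψ : ι → ℝ) :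
    ∑ v, ψ (c v) = ∑ i, #{v | c v = i} * ψ i := by
  rw [← sum_fiberwise univ c]
  exact sum_congr rfl fun i _ => by
    rw [sum_congr rfl fun v hv => by rw [(mem_filter.1 hv).2], sum_const, nsmul_eq_mul]

lemma real {h n : ℕ} (a : Fin (s + 2) → ℕ) (o : Fin (s + 2)) (hn : ∑ i, a i = n)
    (l : 2 * h < a o) : ∃ G : SimpleGraph (Fin n), (F s (2 * h + 1)).Free G ∧ ∀ φ : ℝ → ℝ,
      ∑ v, φ (dg G v) = ∑ i, a i * φ (n - a i + if i = o then 2 * (h : ℝ) else 0) := by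
  obtain ⟨c, hc⟩ : ∃ c : Fin n → Fin (s + 2), ∀ i, #{v | c v = i} = a i := by
    subst hn
    exact ⟨fun v => (finSigmaFinEquiv.symm v).1, fun i => by
      rw [card_filter, Equiv.sum_comp finSigmaFinEquiv.symm fun p => if p.1 = i then 1 else 0,
        Fintype.sum_sigma, sum_eq_single i (fun b _ n => by simp [n]) (by simp)]
      simp⟩
  obtain ⟨R, h1, h2⟩ := reg {v | c v = o} h (by rwa [hc])
  simp only [mem_filter, mem_univ, true_and] at h1 h2
  refine ⟨⟨fun v w => c v ≠ c w ∨ R.Adj v w, ⟨fun v w h => h.imp Ne.symm Adj.symm⟩,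
    ⟨by simp⟩⟩, free (by omega) c o (fun v w h e => h1 v w (h.resolve_left (by simpa)))
    fun v hv => Nat.lt_succ_of_le ((card_le_card fun w hw => ?_).trans_eq (h2 v hv)), fun φ => ?_⟩
  · simp only [mem_filter, mem_univ, true_and] at hw ⊢
    exact hw.1.resolve_left (by simp [hv, hw.2])
  simp only [← hc]
  rw [← fib c fun i => φ (n - #{v | c v = i} + if i = o then 2 * (h : ℝ) else 0)]
  refine sum_congr rfl fun v _ => congrArg φ ?_
  have := card_filter_add_card_filter_not (s := univ) fun w => c w = c v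
  refine (congrArg Nat.cast (show _ = #{w | c v ≠ c w} + #{w | R.Adj v w} by
    rw [dg, ← card_union_of_disjoint (disjoint_filter.2 fun w _ a b =>
      a ((h1 _ _ b).trans (h1 _ _ b.symm).symm))]
    congr 1; ext; simp)).trans ?_
  rw [Nat.cast_add]
  congr 1
  · rw [eq_sub_iff_add_eq']
    simp only [Ne, eq_comm (a := c v)]
    rw [card_fin] at this
    exact_mod_cast this
  · split_ifs with e
    · exact_mod_cast h2 v e
    · simpa using fun w h => e (h1 v w h)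

lemma cherry (G : SimpleGraph V) :
    2 * (G.copyCount (pathGraph 3) : ℝ) = ∑ v, (dg G v : ℝ) * (dg G v - 1) := by
  have a : #(univ : Finset ((pathGraph 3).Copy G)) = #(univ.sigma fun v =>
      (univ.filter (G.Adj v)).offDiag) := by
    refine card_bij (fun f _ => ⟨f 1, f 0, f 2⟩) (fun f _ => ?_) (fun f _ g _ h => ?_) fun p h => ?_
    · simp only [mem_sigma, mem_univ, mem_offDiag, mem_filter, true_and]
      exact ⟨f.toHom.map_adj (v := 1) (w := 0) (by simp [pathGraph_adj]),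
        f.toHom.map_adj (v := 1) (w := 2) (by simp [pathGraph_adj]),
        fun e => absurd (f.injective e) (by decide)⟩
    · simp only [Sigma.mk.injEq, heq_eq_eq, Prod.mk.injEq] at h
      ext i; fin_cases i
      exacts [h.2.1, h.1, h.2.2]
    · simp only [mem_sigma, mem_univ, mem_offDiag, mem_filter, true_and] at h
      refine ⟨⟨⟨![p.2.1, p.1, p.2.2], fun {i j} e => ?_⟩, fun i j e => ?_⟩, mem_univ _, rfl⟩
      · fin_cases i <;> fin_cases j <;> simp_all [pathGraph_adj, adj_comm]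
      · have := h.1.ne
        have := h.2.1.ne
        fin_cases i <;> fin_cases j <;> simp_all [eq_comm]
  let r : (pathGraph 3).Copy (pathGraph 3) := ⟨⟨Fin.rev, fun {i j} => by
    simp only [pathGraph_adj, Fin.val_rev]; omega⟩, Fin.rev_injective⟩
  rw [card_eq_sum_card_image Copy.toSubgraph, sum_const_nat (m := 2) fun K hK => ?_,
    ← copyCount_eq_card_image_copyToSubgraph, card_sigma] at a
  · simp only [offDiag_card] at a
    rw [mul_comm]
    convert congrArg (Nat.cast (R := ℝ)) a using 1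
    · simp
    · simp [dg, Nat.cast_sub (Nat.le_mul_self _), mul_sub]
  obtain ⟨f, -, rfl⟩ := mem_image.1 hK
  have ad : ∀ (g : (pathGraph 3).Copy G) p q, g.toSubgraph.Adj p q ↔
      ∃ i j, (pathGraph 3).Adj i j ∧ g i = p ∧ g j = q := fun g p q => by
    simp [Copy.toSubgraph, Relation.Map]
  refine card_eq_two.2 ⟨f, f.comp r, fun e => ?_, Finset.ext fun g => ?_⟩
  · exact absurd (f.injective (DFunLike.congr_fun e 0) : (0 : Fin 3) = Fin.rev 0) (by decide)
  simp only [mem_filter, mem_univ, true_and, mem_insert, mem_singleton]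
  refine ⟨fun e => ?_, ?_⟩
  · obtain ⟨i, j, p, e1, e2⟩ := (ad f _ _).1 (e ▸ (ad g _ _).2 ⟨1, 0, by simp [pathGraph_adj],
      rfl, rfl⟩)
    obtain ⟨i', j', p', e3, e4⟩ := (ad f _ _).1 (e ▸ (ad g _ _).2 ⟨1, 2, by simp [pathGraph_adj],
      rfl, rfl⟩)
    obtain rfl := f.injective (e1.trans e3.symm)
    have n : j ≠ j' := fun h => absurd (g.injective (e2.symm.trans (h ▸ e4))) (by decide)
    have : i = 1 ∧ (j = 0 ∧ j' = 2 ∨ j = 2 ∧ j' = 0) := by
      simp only [pathGraph_adj, Ne, Fin.ext_iff] at *; simp; omega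
    obtain ⟨rfl, ⟨rfl, rfl⟩ | ⟨rfl, rfl⟩⟩ := this
    · left; ext i; fin_cases i; exacts [e2.symm, e1.symm, e4.symm]
    · right; ext i; fin_cases i; exacts [e2.symm, e1.symm, e4.symm]
  · rintro (rfl | rfl)
    · rfl
    ext p q
    · simp only [Copy.toSubgraph, Subgraph.map_verts, Subgraph.verts_top, Set.image_univ]
      exact ⟨fun ⟨i, h⟩ => ⟨i.rev, h⟩, fun ⟨i, h⟩ => ⟨i.rev, by simpa [r] using h⟩⟩
    · rw [ad, ad]
      exact ⟨fun ⟨i, j, h, a, b⟩ => ⟨i.rev, j.rev, r.toHom.map_adj h, a, b⟩, fun ⟨i, j, h, a, b⟩ =>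
        ⟨i.rev, j.rev, r.toHom.map_adj h, by simpa [r] using a, by simpa [r] using b⟩⟩

end Pool.Agent.H.MP_2c76b2_co
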