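import Pool.Agent.H.MP_2c76b2_co.A

set_option autoImplicit false
open Finset SimpleGraph Function
open scoped Classical

namespace Pool.Agent.H.MP_2c76b2_co

variable {V : Type} {G : SimpleGraph V} {s k : ℕ}

noncomputable def ms (G : SimpleGraph V) (v : V) (X : Finset V) : ℝ := #{w ∈ X | ¬G.Adj v w}

noncomputable def nb (G : SimpleGraph V) (v : V) (X : Finset V) : ℝ := #{w ∈ X | G.Adj v w}

lemma nb_ms (v : V) (X : Finset V) : nb G v X + ms G v X = #X := by
  unfold nb ms; exact_mod_cast card_filter_add_card_filter_not (s := X) (G.Adj v)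

lemma ms_mono (v : V) {X Y : Finset V} (h : X ⊆ Y) : ms G v X ≤ ms G v Y :=
  Nat.cast_le.2 (card_le_card (filter_subset_filter _ h))

lemma pick {S : Finset V} {t : ℕ} (h : (t : ℝ) ≤ #S) :
    ∃ f : Fin t → V, Injective f ∧ ∀ j, f j ∈ S := by
  obtain ⟨f⟩ : Nonempty (Fin t ↪ S) :=
    Embedding.nonempty_of_card_le (by simpa using (Nat.cast_le.1 h : t ≤ #S))
  exact ⟨fun j => f j, Subtype.val_injective.comp f.injective, fun j => (f j).2⟩

lemma cn (Y X : Finset V) (μ : ℝ) (h : ∀ y ∈ Y, ms G y X ≤ μ) :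
    #X - #Y * μ ≤ #{w ∈ X | ∀ y ∈ Y, G.Adj y w} := by
  have a := card_filter_add_card_filter_not (s := X) fun w => ∀ y ∈ Y, G.Adj y w
  have b : #{w ∈ X | ¬∀ y ∈ Y, G.Adj y w} ≤ ∑ y ∈ Y, #{w ∈ X | ¬G.Adj y w} :=
    (card_le_card fun w hw => by
      simp only [mem_filter, mem_biUnion, not_forall] at hw ⊢
      obtain ⟨p, y, q, r⟩ := hw
      exact ⟨y, q, p, r⟩).trans card_biUnion_le
  have c := sum_le_card_nsmul Y _ _ h
  have b' := (Nat.cast_le (α := ℝ)).2 b
  have a' := congrArg (Nat.cast (R := ℝ)) a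
  simp only [ms, nsmul_eq_mul] at c
  push_cast at a' b'
  linarith

lemma greedy {ι : Type} [DecidableEq ι] (X : ι → Finset V) {t : ℕ} (f0 : Fin t → V)
    (i0 : Injective f0) {μ : ℝ} (m0 : 0 ≤ μ) (J : Finset ι) : ∀ Y : Finset V,
    (∀ a ∈ J, ∀ y ∈ Y, ms G y (X a) ≤ μ) → (∀ a ∈ J, ∀ b ∈ J, a ≠ b → ∀ y ∈ X a, ms G y (X b) ≤ μ) →
    (∀ a ∈ J, t + (#J * t + #Y) * μ ≤ #(X a)) → ∃ e : ι → Fin t → V, (∀ a, Injective (e a)) ∧
      (∀ a ∈ J, ∀ j, ∀ y ∈ Y, G.Adj y (e a j)) ∧
      ∀ a ∈ J, ∀ b ∈ J, a ≠ b → ∀ i j, G.Adj (e a i) (e b j) := by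
  induction J using Finset.induction_on with
  | empty => exact fun _ _ _ _ => ⟨fun _ => f0, fun _ => i0, by simp, by simp⟩
  | insert a J n ih =>
    intro Y h1 h2 h3
    simp only [card_insert_of_notMem n] at h3
    push_cast at h3
    have p : (0 : ℝ) ≤ #J * t * μ := by positivity
    have p' : (0 : ℝ) ≤ t * μ := by positivity
    obtain ⟨f, i1, hf⟩ := pick (t := t) (le_trans (by linarith [h3 a (mem_insert_self _ _)])
      (cn Y (X a) μ (h1 a (mem_insert_self _ _))))
    simp only [mem_filter] at hf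
    have c : (#(Y ∪ univ.image f) : ℝ) ≤ #Y + t := by
      exact_mod_cast (card_union_le _ _).trans (by simpa using card_image_le (s := univ) (f := f))
    obtain ⟨e, i2, e1, e2⟩ := ih (Y ∪ univ.image f) (fun b hb y hy => by
        rcases mem_union.1 hy with h | h
        · exact h1 b (mem_insert_of_mem hb) y h
        obtain ⟨j, -, rfl⟩ := mem_image.1 h
        exact h2 a (mem_insert_self _ _) b (mem_insert_of_mem hb) (fun e => n (e ▸ hb)) _ (hf j).1)
      (fun b hb c hc => h2 b (mem_insert_of_mem hb) c (mem_insert_of_mem hc))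
      fun b hb => by nlinarith [h3 b (mem_insert_of_mem hb)]
    have u : ∀ b ∈ J, update e a f b = e b := fun b hb => update_of_ne (fun e : b = a => n (e ▸ hb)) _ _
    have w : ∀ b ∈ J, ∀ i j, G.Adj (f i) (e b j) := fun b hb i j =>
      e1 b hb j _ (mem_union_right _ (mem_image_of_mem _ (mem_univ _)))
    refine ⟨update e a f, fun b => ?_, fun b hb j y hy => ?_, fun b hb c hc ne i j => ?_⟩
    · by_cases h : b = a
      exacts [by rwa [h, update_self], by rw [update_of_ne h]; exact i2 b]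
    · rcases mem_insert.1 hb with rfl | h
      exacts [by rw [update_self]; exact (hf j).2 y hy,
        by rw [u b h]; exact e1 b h j y (mem_union_left _ hy)]
    · rcases mem_insert.1 hb with rfl | h <;> rcases mem_insert.1 hc with rfl | h'
      exacts [absurd rfl ne, by rw [update_self, u c h']; exact w c h' i j,
        by rw [update_self, u b h]; exact (w b h j i).symm,
        by rw [u b h, u c h']; exact e2 b h c h' ne i j]

lemma E1 (i : Fin (s + 2)) (X : Fin (s + 2) → Finset V) {μ : ℝ} (m0 : 0 ≤ μ) (v : V) (Y : Finset V)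
    (hY : k ≤ nb G v Y) (h1 : ∀ a, a ≠ i → ms G v (X a) ≤ μ)
    (h2 : ∀ a, a ≠ i → ∀ y ∈ Y, ms G y (X a) ≤ μ)
    (h3 : ∀ a b, a ≠ b → ∀ y ∈ X a, ms G y (X b) ≤ μ)
    (h4 : ∀ a, (k + 1 : ℝ) * (1 + (s + 3) * μ) ≤ #(X a)) : F s k ⊑ G := by
  obtain ⟨y, iy, hy⟩ := pick hY
  simp only [mem_filter] at hy
  have p : (0 : ℝ) ≤ (k + 1) * μ := by positivity
  have p' : (0 : ℝ) ≤ (k + 1) * (s * μ) := by positivity
  obtain ⟨f, i0, -⟩ := pick (t := k + 1) (S := X i) (by push_cast; nlinarith [h4 i])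
  have c : (#(insert v (univ.image y)) : ℝ) ≤ k + 1 := by
    exact_mod_cast (card_insert_le _ _).trans (by simpa using card_image_le (s := univ) (f := y))
  obtain ⟨e, i1, e1, e2⟩ := greedy (G := G) X f i0 m0 (univ.erase i) (insert v (univ.image y))
    (fun a ha w hw => by
      rcases mem_insert.1 hw with rfl | h
      · exact h1 a (mem_erase.1 ha).1
      obtain ⟨j, -, rfl⟩ := mem_image.1 h
      exact h2 a (mem_erase.1 ha).1 _ (hy j).1) (fun a _ b _ => h3 a b) fun a _ => by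
      rw [card_erase_of_mem (mem_univ _)]
      simp only [card_univ, Fintype.card_fin, Nat.add_succ_sub_one]
      push_cast
      nlinarith [h4 a]
  have m : ∀ a, a ≠ 1 → Equiv.swap 1 i a ∈ univ.erase i := fun a h => by
    simpa [Equiv.swap_apply_eq_iff] using h
  exact cont1 v (fun a => e (Equiv.swap 1 i a)) y (fun a => i1 _) iy
    (fun a j h => e1 _ (m a h) j v (mem_insert_self _ _)) (fun j => (hy j).2)
    (fun a p j h => e1 _ (m a h) j _ (mem_insert_of_mem (mem_image_of_mem _ (mem_univ _))))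
    fun a b p j h h' n => e2 _ (m a h) _ (m b h') ((Equiv.injective _).ne n) p j

lemma E2 {a o : Fin (s + 2)} (ao : a ≠ o) (X : Fin (s + 2) → Finset V) {μ : ℝ} (m0 : 0 ≤ μ)
    {u x : V} (y z : Fin k → V) (ux : G.Adj u x) (hy : ∀ j, G.Adj u (y j) ∧ G.Adj x (y j) ∧ y j ∈ X o)
    (hz : ∀ j, G.Adj u (z j) ∧ G.Adj x (z j) ∧ z j ∈ X o) (yz : ∀ j, G.Adj (y j) (z j))
    (iy : Injective y) (iz : Injective z) (i2 : ∀ i j, y i ≠ z j) (hu : u ∈ X a) (hx : x ∈ X a)
    (h3 : ∀ a b, a ≠ b → ∀ y ∈ X a, ms G y (X b) ≤ μ)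
    (h4 : ∀ a, (k + 1 : ℝ) * (1 + (s + 4) * μ) ≤ #(X a)) : F s k ⊑ G := by
  obtain ⟨σ, hσ⟩ := Equiv.Perm.exists_extending_pair (f := ![(0 : Fin (s + 2)), 1]) (g := ![a, o])
    (by intro i j; fin_cases i <;> fin_cases j <;> simp)
    (by intro i j; fin_cases i <;> fin_cases j <;> simp [ao, ao.symm])
  have s0 : σ 0 = a := hσ 0
  have s1 : σ 1 = o := hσ 1
  have c : (#(insert u (insert x (univ.image y ∪ univ.image z))) : ℝ) ≤ k + k + 1 + 1 := by
    exact_mod_cast (card_insert_le _ _).trans (Nat.succ_le_succ ((card_insert_le _ _).trans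
      (Nat.succ_le_succ ((card_union_le _ _).trans (add_le_add
        (by simpa using card_image_le (s := univ) (f := y))
        (by simpa using card_image_le (s := univ) (f := z)))))))
  have c' : (#((univ.erase a).erase o) : ℝ) ≤ s + 2 := by
    exact_mod_cast (card_le_univ _).trans (by simp)
  obtain ⟨e, i1, e1, e2⟩ := greedy (G := G) X y iy m0 ((univ.erase a).erase o)
    (insert u (insert x (univ.image y ∪ univ.image z)))
    (fun b hb w hw => by
      simp only [mem_erase, mem_insert, mem_union, mem_image, mem_univ, true_and, and_true] at hb hw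
      rcases hw with rfl | rfl | ⟨j, rfl⟩ | ⟨j, rfl⟩
      exacts [h3 _ _ hb.2.symm _ hu, h3 _ _ hb.2.symm _ hx, h3 _ _ hb.1.symm _ (hy j).2.2,
        h3 _ _ hb.1.symm _ (hz j).2.2]) (fun a _ b _ => h3 a b) fun b _ => by
      have : (0 : ℝ) ≤ k * μ := by positivity
      have : (0 : ℝ) ≤ s * μ := by positivity
      nlinarith [h4 b]
  have m : ∀ b, b ≠ 0 → b ≠ 1 → σ b ∈ (univ.erase a).erase o := fun b h h' => by
    simpa [← s0, ← s1] using ⟨h', h⟩
  simp only [mem_insert, mem_union, mem_image, mem_univ, true_and] at e1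
  have l : ∀ {b : Fin (s + 2)}, b = 0 ∨ b = 1 → b.1 ≤ 1 := by rintro _ (rfl | rfl) <;> simp
  refine cont u x (fun b j => if b = 0 then y j else if b = 1 then z j else e (σ b) j) ux
    (fun b j => ?_) (fun b j n => ?_) (fun j => ?_) (fun b d i j n q => ?_) (fun b i j h => ?_)
    fun i j => by simpa using i2 i j
  · split_ifs with h h'
    exacts [(hy j).1, (hz j).1, e1 _ (m b h h') j _ (.inl rfl)]
  · rw [if_neg n]
    split_ifs with h'
    exacts [(hz j).2.1, e1 _ (m b n h') j _ (.inr (.inl rfl))]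
  · simpa using (hy j).2.1.ne
  · split_ifs with h1 h2 h3 h4 h5 h6 h7 h8
    exacts [absurd (h1.trans h2.symm) n, q (l (.inl h1)) (l (.inr h3)) ▸ yz i,
      e1 _ (m d h2 h3) j _ (.inr (.inr (.inl ⟨_, rfl⟩))), q (l (.inr h4)) (l (.inl h5)) ▸ (yz i).symm,
      absurd (h4.trans h6.symm) n, e1 _ (m d h5 h6) j _ (.inr (.inr (.inr ⟨_, rfl⟩))),
      (e1 _ (m b h1 h4) i _ (.inr (.inr (.inl ⟨_, rfl⟩)))).symm,
      (e1 _ (m b h1 h4) i _ (.inr (.inr (.inr ⟨_, rfl⟩)))).symm,
      e2 _ (m b h1 h4) _ (m d h7 h8) (σ.injective.ne n) i j]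
  · simp only at h
    split_ifs at h
    exacts [iy h, iz h, i1 _ h]

lemma mt (S : Finset V) {d : ℝ} (d0 : 0 ≤ d) (hd : ∀ v ∈ S, nb G v S ≤ d) (k : ℕ) : ∀ M : Finset V,
    2 * d * (#M + 2 * k) < ∑ v ∈ S, nb G v S → ∃ y z : Fin k → V, (∀ j, y j ∈ S \ M) ∧
      (∀ j, z j ∈ S \ M) ∧ (∀ j, G.Adj (y j) (z j)) ∧ Injective y ∧ Injective z ∧
      ∀ i j, y i ≠ z j := by
  induction k with
  | zero => exact fun _ _ => ⟨![], ![], by simp, by simp, by simp, injective_of_subsingleton _,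
      injective_of_subsingleton _, by simp⟩
  | succ k ih =>
    intro M h
    have k0 : (0 : ℝ) ≤ d * k := by positivity
    obtain ⟨v, hv, w, hw, vw⟩ : ∃ v ∈ S \ M, ∃ w ∈ S \ M, G.Adj v w := by
      by_contra! c
      have a : ∑ v ∈ S, ∑ w ∈ S, (if v ∈ M ∧ G.Adj v w then 1 else 0 : ℝ) ≤ #M * d :=
        calc _ ≤ ∑ v ∈ S, if v ∈ M then d else 0 := sum_le_sum fun v hv => by
              split_ifs with p
              · simpa [p, nb] using hd v hv
              · simp [p]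
          _ ≤ _ := by
              rw [← sum_filter, sum_const, nsmul_eq_mul]
              gcongr
              exact fun v hv => (mem_filter.1 hv).2
      have b : ∑ v ∈ S, nb G v S ≤ ∑ v ∈ S, ∑ w ∈ S, ((if v ∈ M ∧ G.Adj v w then 1 else 0 : ℝ) +
          if w ∈ M ∧ G.Adj w v then 1 else 0) := sum_le_sum fun v hv => by
        rw [nb, card_filter]
        push_cast
        refine sum_le_sum fun w hw => ?_
        by_cases e : G.Adj v w
        · have := c v
          by_cases p : v ∈ M <;> by_cases q : w ∈ M <;> simp_all [e.symm]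
        · simp [e, G.adj_comm w v]
      simp only [sum_add_distrib] at b
      rw [sum_comm (f := fun v w => if w ∈ M ∧ G.Adj w v then (1 : ℝ) else 0)] at b
      push_cast at h
      nlinarith
    have c : (#(insert v (insert w M)) : ℝ) ≤ #M + 1 + 1 := by
      exact_mod_cast (card_insert_le _ _).trans (Nat.succ_le_succ (card_insert_le _ _))
    obtain ⟨y, z, hy, hz, yz, iy, iz, n⟩ := ih (insert v (insert w M)) (by push_cast at h; nlinarith)
    simp only [mem_sdiff, mem_insert, not_or] at hy hz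
    refine ⟨Fin.cons v y, Fin.cons w z, Fin.cases hv fun j => mem_sdiff.2 ⟨(hy j).1, (hy j).2.2.2⟩,
      Fin.cases hw fun j => mem_sdiff.2 ⟨(hz j).1, (hz j).2.2.2⟩, Fin.cases vw yz,
      Fin.cons_injective_iff.2 ⟨fun ⟨j, e⟩ => (hy j).2.1 e, iy⟩,
      Fin.cons_injective_iff.2 ⟨fun ⟨j, e⟩ => (hz j).2.2.1 e, iz⟩, Fin.cases (Fin.cases vw.ne
        fun j e => (hz j).2.1 e.symm) fun i => Fin.cases (hy i).2.2.1 (n i)⟩

end Pool.Agent.H.MP_2c76b2_co
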