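import Pool.Agent.H.MP_2c76b2_co.B

set_option autoImplicit false
open Finset SimpleGraph Function
open scoped Classical

namespace Pool.Agent.H.MP_2c76b2_co

variable {V : Type} {G : SimpleGraph V} {s k : ℕ} [Fintype V]

lemma ms_univ (v : V) : ms G v univ = Fintype.card V - dg G v :=
  eq_sub_of_add_eq' (nb_ms (G := G) v univ)

lemma ms_compl [DecidableEq V] (v : V) (X : Finset V) : ms G v Xᶜ = ms G v univ - ms G v X := by
  rw [eq_sub_iff_add_eq, ms, ms, ms, ← Nat.cast_add, ← card_union_of_disjoint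
    (disjoint_filter_filter disjoint_compl_left), ← filter_union]
  congr 3; ext; simp [em']

lemma ms_sum (X : Finset V) : ∑ v, ms G v X = ∑ w ∈ X, ms G w univ := by
  simp only [ms, card_filter]
  push_cast
  rw [sum_comm]
  simp only [G.adj_comm]

omit [Fintype V] in
lemma ms_zero {v : V} {X : Finset V} (h : ∀ w ∈ X, G.Adj v w) : ms G v X = 0 := by
  simpa [ms] using h

omit [Fintype V] in
lemma ms_nn (v : V) (X : Finset V) : 0 ≤ ms G v X := Nat.cast_nonneg _

lemma st1 (s k : ℕ) {γ : ℝ} (g0 : 0 < γ) : ∃ ε > (0 : ℝ), ε ≤ γ ∧ ∀ᶠ n : ℕ in Filter.atTop,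
    ∀ G : SimpleGraph (Fin n), (F s k).Free G → (∀ v, (1 - 1 / (s + 2) - ε) * n ≤ dg G v) →
    ∃ U : Fin (s + 2) → Finset (Fin n), (∀ v i j, v ∈ U i → v ∈ U j → i = j) ∧
      (∀ i, (1 / (s + 2) - 3 * γ) * n ≤ #(U i)) ∧ ∀ i, ∀ v ∈ U i, ms G v (U i)ᶜ ≤ 3 * γ * n := by
  obtain ⟨μ, m0, hμ⟩ : ∃ μ > (0 : ℝ), γ * μ = k + 1 := ⟨(k + 1) / γ, by positivity, by field_simp⟩
  obtain ⟨T, hT⟩ := exists_nat_ge ((k + 1 : ℝ) * (1 + (s + 3) * μ))
  obtain ⟨ε, e0, e1, e2, e3⟩ : ∃ ε > (0 : ℝ), (s + 2) * T * ε ≤ 1 ∧ (s + 2) * ε ≤ γ ∧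
      ε + ε ≤ 1 / (s + 1) - 1 / (s + 2) := by
    refine ⟨min (1 / ((s + 2) * T + 1)) (min (γ / (s + 2)) (1 / (2 * (s + 1) * (s + 2)))),
      by positivity, ?_, ?_, ?_⟩
    · refine (mul_le_mul_of_nonneg_left (min_le_left _ _) (by positivity)).trans ?_
      rw [mul_one_div, div_le_one (by positivity)]; simp
    · refine (mul_le_mul_of_nonneg_left ((min_le_right _ _).trans (min_le_left _ _))
        (by positivity)).trans_eq (by field_simp)
    · refine (add_le_add ((min_le_right _ _).trans (min_le_right _ _))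
        ((min_le_right _ _).trans (min_le_right _ _))).trans_eq (by field_simp; ring)
  have s0 : (0 : ℝ) ≤ s * ε := by positivity
  refine ⟨ε, e0, by linarith, ?_⟩
  filter_upwards [eventually_completeEquipartiteGraph_isContained_of_minDegree e0 (s + 1) T,
    (tendsto_natCast_atTop_atTop.const_mul_atTop g0).eventually_ge_atTop ((s + 2 : ℝ) * k),
    Filter.eventually_gt_atTop 0] with n hn hk n0 G fr δ
  have : Nonempty (Fin n) := ⟨⟨0, n0⟩⟩
  have n0' : (0 : ℝ) ≤ n := by positivity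
  obtain ⟨f⟩ := @hn G _ (by
    obtain ⟨v, hv⟩ := G.exists_minimal_degree_vertex
    rw [hv, dg_eq]
    push_cast
    nlinarith [δ v])
  obtain ⟨B, cB, aB⟩ : ∃ B : Fin (s + 2) → Finset (Fin n), (∀ a, #(B a) = T) ∧
      ∀ a b, a ≠ b → ∀ v ∈ B a, ∀ w ∈ B b, G.Adj v w := by
    refine ⟨fun a => univ.image fun j => f (a, j), fun a => ?_, fun a b ab v hv w hw => ?_⟩
    · exact (card_image_of_injective _ fun i j e =>
        congrArg Prod.snd (f.injective e : (a, i) = (a, j))).trans (card_fin _)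
    · obtain ⟨i, -, rfl⟩ := mem_image.1 hv
      obtain ⟨j, -, rfl⟩ := mem_image.1 hw
      exact f.toHom.map_adj ab
  have mu : ∀ v, ms G v univ ≤ (1 / (s + 2) + ε) * n := fun v => by
    rw [ms_univ, Fintype.card_fin]; linarith [δ v]
  have c1 : ∀ v, ∃ i, (T : ℝ) - k ≤ ms G v (B i) := fun v => by
    by_contra! c
    have q : ∀ a, (k + 1 : ℝ) ≤ nb G v (B a) := fun a => by
      have : (k : ℝ) < nb G v (B a) := by linarith [cB a ▸ nb_ms (G := G) v (B a), c a]
      unfold nb at this ⊢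
      exact_mod_cast this
    refine fr (E1 0 (fun a => (B a).filter (G.Adj v)) le_rfl v (B 0) (by linarith [q 0])
      (fun a _ => (ms_zero fun w hw => (mem_filter.1 hw).2).le)
      (fun a h y hy => (ms_zero fun w hw => aB _ _ h.symm y hy w (mem_filter.1 hw).1).le)
      (fun a b h y hy => (ms_zero fun w hw =>
        aB _ _ h y (mem_filter.1 hy).1 w (mem_filter.1 hw).1).le) fun a => by simpa [nb] using q a)
  choose c hc using c1
  obtain ⟨P, hP⟩ : ∃ P : Fin n → Prop, ∀ v, P v ↔ ∀ a, a ≠ c v → ms G v (B a) ≤ μ :=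
    ⟨_, fun _ => Iff.rfl⟩
  have at' : (#{v | ¬P v} : ℝ) ≤ γ * n := by
    have a : ∑ v : Fin n, ((T : ℝ) - k + if ¬P v then μ else 0) ≤ ∑ v, ∑ a, ms G v (B a) :=
      sum_le_sum fun v _ => by
        rw [← add_sum_erase _ _ (mem_univ (c v))]
        refine add_le_add (hc v) ?_
        split_ifs with h
        · exact sum_nonneg fun _ _ => ms_nn _ _
        · rw [hP] at h
          push Not at h
          obtain ⟨a, ha, h⟩ := h
          exact h.le.trans (single_le_sum (f := fun a => ms G v (B a)) (fun _ _ => ms_nn _ _)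
            (mem_erase.2 ⟨ha, mem_univ _⟩))
    have b : ∑ a, ∑ v, ms G v (B a) ≤ ∑ _a : Fin (s + 2), T * ((1 / (s + 2) + ε) * n) :=
      sum_le_sum fun a _ => by
        rw [ms_sum, ← cB a, ← nsmul_eq_mul]
        exact sum_le_card_nsmul _ _ _ fun w _ => mu w
    rw [sum_comm, sum_add_distrib, ← sum_filter] at a
    simp only [sum_const, card_fin, nsmul_eq_mul] at a b
    push_cast at b
    have : (s + 2 : ℝ) * (T * ((1 / (s + 2) + ε) * n)) = T * n + (s + 2) * T * ε * n := by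
      field_simp
    refine le_of_mul_le_mul_right ?_ m0
    nlinarith
  obtain ⟨U, hU⟩ : ∃ U : Fin (s + 2) → Finset (Fin n), ∀ i v, v ∈ U i ↔ P v ∧ c v = i :=
    ⟨fun i => {v | P v ∧ c v = i}, by simp⟩
  have in1 : ∀ i, ∀ v ∈ U i, #(U i) - k ≤ ms G v (U i) := fun i v hv => by
    by_contra! q
    exact fr (E1 i B m0.le v (U i) (by linarith [nb_ms (G := G) v (U i)])
      (fun a h => (hP v).1 ((hU _ _).1 hv).1 a (((hU _ _).1 hv).2 ▸ h))
      (fun a h y hy => (hP y).1 ((hU _ _).1 hy).1 a (((hU _ _).1 hy).2 ▸ h))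
      (fun a b h y hy => (ms_zero (aB a b h y hy)).trans_le m0.le) fun a => cB a ▸ hT)
  have up : ∀ i, (#(U i) : ℝ) ≤ (1 / (s + 2) + ε) * n + k := fun i => by
    rcases (U i).eq_empty_or_nonempty with h | ⟨v, hv⟩
    · rw [h, card_empty, Nat.cast_zero]; positivity
    · linarith [in1 i v hv, mu v, ms_mono (G := G) v (subset_univ (U i))]
  have lo : ∀ i, (1 / (s + 2) - γ) * n - (s + 1) * (ε * n + k) ≤ #(U i) := fun i => by
    have a := card_filter_add_card_filter_not (s := univ) P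
    have b : #{v | P v} = ∑ i, #(U i) := by
      rw [card_eq_sum_card_fiberwise (f := c) (t := univ) (by simp)]
      exact sum_congr rfl fun i _ => congrArg _ (by ext; simp [hU])
    have d := sum_le_card_nsmul (univ.erase i) _ _ fun j _ => up j
    rw [b, ← add_sum_erase _ _ (mem_univ i), card_fin] at a
    rw [card_erase_of_mem (mem_univ _), card_fin, nsmul_eq_mul] at d
    have a' := congrArg (Nat.cast (R := ℝ)) a
    simp only [Nat.add_succ_sub_one] at d
    push_cast at a' d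
    have : (s + 1 : ℝ) * (1 / (s + 2)) * n = n - 1 / (s + 2) * n := by field_simp; ring
    nlinarith
  have k0 : (0 : ℝ) ≤ k := by positivity
  have e4 := mul_le_mul_of_nonneg_right e2 n0'
  have e5 := mul_nonneg e0.le n0'
  refine ⟨U, fun v i j p q => ((hU _ _).1 p).2.symm.trans ((hU _ _).1 q).2, fun i => by
    nlinarith [lo i], fun i v hv => ?_⟩
  rw [ms_compl]
  nlinarith [lo i, in1 i v hv, mu v]

lemma st2 (s k : ℕ) {η : ℝ} (h0 : 0 < η) : ∃ ε > (0 : ℝ), ∀ᶠ n : ℕ in Filter.atTop,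
    ∀ G : SimpleGraph (Fin n), (F s k).Free G → (∀ v, (1 - 1 / (s + 2) - ε) * n ≤ dg G v) →
    ∃ c : Fin n → Fin (s + 2), (∀ i, (1 / (s + 2) - η) * n ≤ #{v | c v = i}) ∧
      ∀ v, ms G v {w | c w ≠ c v} ≤ η * n := by
  obtain ⟨γ, g0, hγ⟩ : ∃ γ > (0 : ℝ), (5 + 3 * (k + 1) * (s + 3)) * γ = η :=
    ⟨η / (5 + 3 * (k + 1) * (s + 3)), by positivity, by field_simp⟩
  obtain ⟨ε, e0, e1, h⟩ := st1 s k g0
  refine ⟨ε, e0, ?_⟩
  filter_upwards [h, (tendsto_natCast_atTop_atTop.const_mul_atTop g0).eventually_ge_atTop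
    (k + 1 : ℝ)] with n h hk G fr δ
  obtain ⟨U, dj, lo, mi⟩ := h G fr δ
  have n0 : (0 : ℝ) ≤ n := by positivity
  have p : (0 : ℝ) ≤ (k + 1) * (s + 3) * (γ * n) := by positivity
  have p' : (0 : ℝ) ≤ γ * n := by positivity
  have cr : ∀ a b, a ≠ b → ∀ y ∈ U a, ∀ X ⊆ U b, ms G y X ≤ 3 * γ * n := fun a b ab y hy X hX =>
    (ms_mono y fun w hw => mem_compl.2 fun q => ab (dj w a b q (hX hw))).trans (mi a y hy)
  have c1 : ∀ v, ∃ i, (∀ j, v ∈ U j → i = j) ∧ ms G v (U i)ᶜ ≤ η * n := fun v => by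
    by_cases q : ∃ i, v ∈ U i
    · obtain ⟨i, q⟩ := q
      exact ⟨i, fun j => dj v i j q, (mi i v q).trans (by nlinarith)⟩
    obtain ⟨i, hi⟩ : ∃ i, nb G v (U i) < (k + 1 : ℝ) * (1 + (s + 3) * (3 * γ * n)) := by
      by_contra! c
      exact fr (E1 0 (fun a => (U a).filter (G.Adj v)) (by positivity) v (U 0) (by nlinarith [c 0])
        (fun a _ => (ms_zero fun w hw => (mem_filter.1 hw).2).trans_le (by positivity))
        (fun a h y hy => cr _ _ h.symm y hy _ (filter_subset _ _))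
        (fun a b h y hy => cr _ _ h y (mem_filter.1 hy).1 _ (filter_subset _ _)) c)
    refine ⟨i, fun j h => absurd ⟨j, h⟩ q, ?_⟩
    rw [ms_compl, ms_univ, Fintype.card_fin]
    nlinarith [nb_ms (G := G) v (U i), lo i, δ v]
  choose c h1 h2 using c1
  refine ⟨c, fun i => le_trans (by nlinarith) ((lo i).trans (Nat.cast_le.2 (card_le_card
    fun v hv => by simpa using h1 v i hv))), fun v => (ms_mono v fun w hw => ?_).trans (h2 v)⟩
  exact mem_compl.2 fun q => (mem_filter.1 hw).2 (h1 w _ q)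

end Pool.Agent.H.MP_2c76b2_co
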