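import Pool.Agent.H.MP_2c76b2_co.C

set_option autoImplicit false
open Finset SimpleGraph Function
open scoped Classical

namespace Pool.Agent.H.MP_2c76b2_co

def Mx (s k : ℕ) {n : ℕ} (G : SimpleGraph (Fin n)) (φ : ℝ → ℝ) : Prop :=
  ∀ G' : SimpleGraph (Fin n), (F s k).Free G' → ∑ v, φ (dg G' v) ≤ ∑ v, φ (dg G v)

lemma exact {s h n : ℕ} {G : SimpleGraph (Fin n)} {x : ℝ} (fr : (F s (2 * h + 1)).Free G)
    (c : Fin n → Fin (s + 2)) (hx : 2 * h + 2 ≤ x) (h0 : 0 < h)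
    (lo : ∀ i, ((2 * h + 2) * (s + 4) + 8 * (s + 2) + 1) * x ≤ #{v | c v = i})
    (mi : ∀ v, ms G v {w | c w ≠ c v} ≤ x) (mx : Mx s (2 * h + 1) G id) :
    ∃ o, ∀ v, (dg G v : ℝ) = n - #{w | c w = c v} + if c v = o then 2 * (h : ℝ) else 0 := by
  obtain ⟨X, hX⟩ : ∃ X : Fin (s + 2) → Finset (Fin n), ∀ i, X i = univ.filter (c · = i) :=
    ⟨_, fun _ => rfl⟩
  have mX : ∀ i v, v ∈ X i ↔ c v = i := by simp [hX]
  simp only [← hX] at lo ⊢
  have h0' : (0 : ℝ) < h := by exact_mod_cast h0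
  have x0 : 0 ≤ x := by linarith
  have p1 : (0 : ℝ) ≤ s * x := by positivity
  have p2 : (0 : ℝ) ≤ h * x := by positivity
  have p3 : (0 : ℝ) ≤ h * (s * x) := by positivity
  have cr : ∀ a b, a ≠ b → ∀ y ∈ X a, ms G y (X b) ≤ x := fun a b ab y hy =>
    (ms_mono y fun w hw => by simp [(mX _ _).1 hw, (mX _ _).1 hy, ab.symm]).trans (mi y)
  have i1 : ∀ i, ∀ v ∈ X i, nb G v (X i) ≤ 2 * h := fun i v hv => by
    by_contra! q
    refine fr (E1 i X x0 v (X i) ?_ (fun a h => cr _ _ h.symm v hv) (fun a h => cr _ _ h.symm) cr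
      fun a => by push_cast; nlinarith [lo a])
    unfold nb at q ⊢
    exact_mod_cast q
  have d1 : ∀ v, (dg G v : ℝ) ≤ n - #(X (c v)) + nb G v (X (c v)) := fun v => by
    have := ms_univ (G := G) v
    rw [Fintype.card_fin] at this
    linarith [nb_ms (G := G) v (X (c v)), ms_mono (G := G) v (subset_univ (X (c v)))]
  have re : ∀ o, ∑ v, (n - #(X (c v)) + if c v = o then 2 * (h : ℝ) else 0) ≤ ∑ v, (dg G v : ℝ) :=
    fun o => by
      obtain ⟨G', f, e⟩ := real (h := h) (n := n) (fun i => #(X i)) o (by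
        simp only [hX]; rw [← card_eq_sum_card_fiberwise (by simp), card_fin])
        (by have : (2 * h : ℝ) < #(X o) := by nlinarith [lo o]
            exact_mod_cast this)
      rw [fib c fun i => n - #(X i) + if i = o then 2 * (h : ℝ) else 0]
      simp only [← hX]
      exact (e id).ge.trans (mx G' f)
  obtain ⟨o, -, ho⟩ : ∃ o ∈ (univ : Finset (Fin (s + 2))), 2 * h * (8 * x) ≤ ∑ v ∈ X o, nb G v (X o) := by
    refine exists_le_of_sum_le univ_nonempty ?_
    have a := (re 0).trans (sum_le_sum fun v _ => d1 v)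
    rw [sum_add_distrib, sum_add_distrib, add_le_add_iff_left, ← sum_filter, ← hX,
      ← sum_fiberwise univ c] at a
    simp only [sum_const, card_fin, nsmul_eq_mul, ← hX] at a ⊢
    refine le_trans ?_ (a.trans_eq (sum_congr rfl fun i _ => sum_congr rfl fun v hv => by
      rw [(mX _ _).1 hv]))
    push_cast
    nlinarith [mul_le_mul_of_nonneg_right (lo 0) h0'.le, mul_nonneg h0'.le p2, mul_nonneg h0'.le p3]
  refine ⟨o, fun v => (sum_eq_sum_iff_of_le fun v _ => (d1 v).trans ?_).1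
    (le_antisymm (sum_le_sum fun v _ => (d1 v).trans ?_) (re o)) v (mem_univ _)⟩
  all_goals
    refine add_le_add_right ?_ _
    split_ifs with q
    · exact i1 _ v ((mX _ _).2 rfl)
    by_contra! l
    obtain ⟨w, hw⟩ := card_pos.1 (Nat.cast_pos.1 l)
    rw [mem_filter] at hw
    obtain ⟨y, z, hy, hz, yz, iy, iz, i2⟩ := mt (X o) (by positivity) (i1 o) (2 * h + 1)
      ({u ∈ X o | ¬G.Adj v u} ∪ {u ∈ X o | ¬G.Adj w u}) (by
        have := (Nat.cast_le (α := ℝ)).2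
          (card_union_le {u ∈ X o | ¬G.Adj v u} {u ∈ X o | ¬G.Adj w u})
        have a := cr _ _ q v ((mX _ _).2 rfl)
        have b := cr _ _ q w hw.1
        unfold ms at a b
        push_cast at this ⊢
        nlinarith)
    simp only [mem_sdiff, mem_union, mem_filter, not_or, not_and, not_not] at hy hz
    exact fr (E2 q X x0 y z hw.2 (fun j => ⟨(hy j).2.1 (hy j).1, (hy j).2.2 (hy j).1, (hy j).1⟩)
      (fun j => ⟨(hz j).2.1 (hz j).1, (hz j).2.2 (hz j).1, (hz j).1⟩) yz iy iz i2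
      ((mX _ _).2 rfl) hw.1 cr fun a => by push_cast; nlinarith [lo a])

lemma cmp {s h n : ℕ} {G : SimpleGraph (Fin n)} (c : Fin n → Fin (s + 2)) {o i : Fin (s + 2)}
    (ex : ∀ v, (dg G v : ℝ) = n - #{w | c w = c v} + if c v = o then 2 * (h : ℝ) else 0)
    (io : i ≠ o) {φ : ℝ → ℝ} (mx : Mx s (2 * h + 1) G φ) {p q p' q' : ℕ} (hp : #{v | c v = o} = p)
    (hq : #{v | c v = i} = q) (e : p' + q' = p + q) (l : 2 * h < p') :
    p' * φ (n - p' + 2 * h) + q' * φ (n - q') ≤ p * φ (n - p + 2 * h) + q * φ (n - q) := by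
  have t : ∀ {M : Type} [AddCommMonoid M] (f : Fin (s + 2) → M),
      ∑ j, f j = f o + (f i + ∑ j ∈ (univ.erase o).erase i, f j) := fun f => by
    rw [add_sum_erase _ _ (by simp [io]), add_sum_erase _ _ (mem_univ _)]
  have u : ∀ {M : Type} [AddCommMonoid M] (f : Fin (s + 2) → ℕ → M),
      ∑ j ∈ (univ.erase o).erase i, f j (if j = o then p' else if j = i then q' else #{v | c v = j}) =
      ∑ j ∈ (univ.erase o).erase i, f j #{v | c v = j} := fun f => sum_congr rfl fun j hj => by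
    simp only [mem_erase] at hj
    rw [if_neg hj.2.1, if_neg hj.1]
  obtain ⟨G', f, e⟩ := real (h := h) (n := n)
    (fun j => if j = o then p' else if j = i then q' else #{v | c v = j}) o (by
      have := card_eq_sum_card_fiberwise (f := c) (s := univ) (t := univ) (by simp)
      rw [card_fin, t, hp, hq] at this
      rw [t, u fun _ a => a]
      simp only [if_pos, if_neg io]
      omega) (by simpa)
  have a := mx G' f
  simp only [ex] at a
  rw [e, fib c fun i => φ (n - #{w | c w = i} + if i = o then 2 * (h : ℝ) else 0), t,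
    t fun j => (#{v | c v = j} : ℝ) * _,
    u fun j a => (a : ℝ) * φ (n - a + if j = o then 2 * (h : ℝ) else 0)] at a
  simp only [if_pos, if_neg io, hp, hq, add_zero] at a
  linarith

lemma st3 (s : ℕ) : ∃ ε > (0 : ℝ), ∀ᶠ n : ℕ in Filter.atTop, ∀ G : SimpleGraph (Fin n),
    (F s (2 * (8 * (s + 2)) + 1)).Free G → (∀ v, (1 - 1 / (s + 2) - ε) * n ≤ dg G v) →
    Mx s (2 * (8 * (s + 2)) + 1) G id → ¬Mx s (2 * (8 * (s + 2)) + 1) G fun x => x * (x - 1) := by
  obtain ⟨h, hh⟩ : ∃ h, h = 8 * (s + 2) := ⟨_, rfl⟩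
  rw [← hh]
  have hh' : (h : ℝ) = 8 * (s + 2) := by exact_mod_cast hh
  obtain ⟨D, hD⟩ : ∃ D : ℝ, D = (2 * h + 2) * (s + 4) + 8 * (s + 2) + 1 := ⟨_, rfl⟩
  have s0 : (0 : ℝ) ≤ s := by positivity
  have D0 : 1 ≤ D := by nlinarith
  have h0 : 0 < 1 / ((s + 2 : ℝ) * (D + 1)) := by positivity
  obtain ⟨ε, e0, H⟩ := st2 s (2 * h + 1) h0
  refine ⟨ε, e0, ?_⟩
  filter_upwards [H, (tendsto_natCast_atTop_atTop.const_mul_atTop h0).eventually_ge_atTop
    (2 * h + 2 : ℝ)] with n H hx G fr δ m1 m2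
  obtain ⟨c, lo, mi⟩ := H G fr δ
  obtain ⟨x, ex⟩ : ∃ x : ℝ, x = 1 / ((s + 2 : ℝ) * (D + 1)) * n := ⟨_, rfl⟩
  have nx : (n : ℝ) = (s + 2) * (D + 1) * x := by rw [ex]; field_simp
  have lo' : ∀ i, D * x ≤ #{v | c v = i} := fun i => le_trans (le_of_eq (by
    rw [ex]; field_simp; ring)) (lo i)
  rw [← ex] at mi hx
  obtain ⟨o, ho⟩ := exact fr c hx (by omega) (hD ▸ lo') mi m1
  obtain ⟨i, io⟩ := exists_ne o
  have x0 : 0 ≤ x := by linarith
  have l : ∀ i, 2 * h + 2 ≤ #{v | c v = i} := fun i => by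
    have : (2 * h + 2 : ℝ) ≤ #{v | c v = i} := by nlinarith [lo' i]
    exact_mod_cast this
  obtain ⟨p, hp⟩ : ∃ p, #{v | c v = o} = p + 1 := ⟨_, (Nat.succ_pred_eq_of_pos (by
    have := l o; omega)).symm⟩
  obtain ⟨q, hq⟩ : ∃ q, #{v | c v = i} = q + 1 := ⟨_, (Nat.succ_pred_eq_of_pos (by
    have := l i; omega)).symm⟩
  have lo := l o
  have a := cmp c ho io m1 hp hq (p' := p + 2) (q' := q) (by omega) (by omega)
  have b := cmp c ho io m1 hp hq (p' := p) (q' := q + 2) (by omega) (by omega)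
  have d := cmp c ho io m2 hp hq (p' := p) (q' := q + 2) (by omega) (by omega)
  have e := lo' i
  rw [hq] at e
  simp only [id] at a b
  push_cast at a b d e
  obtain ⟨t, ht⟩ : ∃ t : ℝ, (p : ℝ) = q + h + t := ⟨p - q - h, by ring⟩
  have t1 : -1 ≤ t := by nlinarith
  have t2 : t ≤ 1 := by nlinarith
  have n0 : (0 : ℝ) ≤ n - (q + 1) := by
    have := card_le_univ ({v | c v = i} : Finset _)
    rw [hq, Fintype.card_fin] at this
    exact sub_nonneg.2 (by exact_mod_cast this)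
  have k1 : (n : ℝ) ≤ 2 * (s + 2) * (q + 1) := by nlinarith [mul_nonneg x0 (sub_nonneg.2 D0)]
  have q0 : (0 : ℝ) ≤ q := by positivity
  rw [ht] at d
  nlinarith [mul_nonneg n0 (sub_nonneg.2 t1), mul_nonneg q0 (sub_nonneg.2 t2),
    mul_nonneg (sub_nonneg.2 t1) (sub_nonneg.2 t2), mul_nonneg s0 (sub_nonneg.2 t1), mul_nonneg s0 s0]

lemma incr (e : ℕ → ℝ) {α ε : ℝ} (e0 : 0 < ε) (a1 : α ≤ 1) (r : ℕ)
    (lo : ∀ᶠ m : ℕ in Filter.atTop, (α + ε) * ((r + 1) * m) ^ 2 ≤ 2 * e ((r + 1) * m)) :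
    ∃ᶠ n : ℕ in Filter.atTop, α * (n + 1 : ℕ) ≤ e (n + 1) - e n := by
  by_contra c
  simp only [Filter.not_frequently, not_le, Filter.eventually_atTop] at c
  obtain ⟨N, hN⟩ := c
  have a : ∀ n, N ≤ n → 2 * e n - α * n * (n + 1) ≤ 2 * e N - α * N * (N + 1) := fun n hn => by
    induction n, hn using Nat.le_induction with
    | base => rfl
    | succ n hn ih => have := hN n hn; push_cast at this ⊢; nlinarith
  obtain ⟨m, h1, h2, h3⟩ := (lo.and ((Filter.eventually_ge_atTop (N + 1)).and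
    ((tendsto_natCast_atTop_atTop.const_mul_atTop e0).eventually_gt_atTop
      (1 + |2 * e N - α * N * (N + 1)|)))).exists
  have b := (a ((r + 1) * m) (by nlinarith)).trans (le_abs_self _)
  have m1 : (1 : ℝ) ≤ m := by exact_mod_cast le_trans (by omega) h2
  have r0 : (0 : ℝ) ≤ r * m := by positivity
  push_cast at b
  have A0 := abs_nonneg (2 * e N - α * N * (N + 1))
  generalize |2 * e N - α * N * (N + 1)| = A at *
  obtain ⟨y, hy⟩ : ∃ y : ℝ, (r + 1) * m = y := ⟨_, rfl⟩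
  rw [hy] at b h1
  have y1 : m ≤ y := by linarith
  have : A < y * (ε * y - 1) := by
    nlinarith [mul_le_mul_of_nonneg_left y1 e0.le, mul_nonneg A0 (sub_nonneg.2 (m1.trans y1)),
      mul_pos (one_pos.trans_le (m1.trans y1)) (sub_pos.2 (h3.trans_le
        (mul_le_mul_of_nonneg_left y1 e0.le)))]
  nlinarith

end Pool.Agent.H.MP_2c76b2_co
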